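import Pool.Agent.helper35.BQ.Spec

/-!
# PRI: elements which centralise a Sylow subgroup are inner for the principal block
-/

set_option autoImplicit false

namespace Pool.Agent.BQ

open Pool.Agent.helper58.DC Pool.Agent.DI Pool.Agent.DR Pool.Agent.NQ

/-- the trivial character -/
theorem PRI_one (H : Type) [Group H] : (fun _ : H => (1 : ℂ)) ∈ Irr H := by
  refine ⟨ℂ, inferInstance, inferInstance, inferInstance, 1, ?_, ?_⟩
  · have hne : (⊥ : Subrepresentation (1 : Representation ℂ H ℂ)) ≠ ⊤ := by
      intro h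
      have h1 : (⊥ : Submodule ℂ ℂ) = ⊤ :=
        congrArg Subrepresentation.toSubmodule h
      exact bot_ne_top h1
    have : Nontrivial (Subrepresentation (1 : Representation ℂ H ℂ)) := ⟨⟨⊥, ⊤, hne⟩⟩
    refine IsSimpleOrder.mk fun S => ?_
    rcases eq_bot_or_eq_top S.toSubmodule with h | h
    · left
      exact Subrepresentation.toSubmodule_injective h
    · right
      exact Subrepresentation.toSubmodule_injective h
  · funext g
    show LinearMap.trace ℂ ℂ ((1 : Representation ℂ H ℂ) g) = 1
    rw [MonoidHom.one_apply, LinearMap.trace_one]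
    simp

/-- The central character of the trivial character. -/
theorem PRI_omega (H : Type) [Group H] [Finite H] (y : H) :
    omega (fun _ : H => (1 : ℂ)) y = (Nat.card (conjugatesOf y) : ℂ) := by
  unfold omega
  have hfin : (conjugatesOf y).Finite := Set.toFinite _
  rw [finsum_mem_eq_finite_toFinset_sum _ hfin, Finset.sum_const,
    ← Set.ncard_eq_toFinset_card _ hfin, Nat.card_coe_set_eq, nsmul_eq_mul, mul_one, div_one]

/-- The class of `y` in `H` is the quotient of `G` by the centraliser, if `H = G⟨y⟩`. -/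
theorem PRI_card {G H : Type} [Group G] [Group H] (i : G →* H) (y : H)
    (hH : ∀ h : H, ∃ g : G, ∃ n : ℤ, h = i g * y ^ n) :
    Nat.card (conjugatesOf y) = ((Subgroup.centralizer {y}).comap i).index := by
  have hmem : ∀ g : G, g ∈ (Subgroup.centralizer {y}).comap i ↔ i g * y = y * i g := by
    intro g
    rw [Subgroup.mem_comap, Subgroup.mem_centralizer_singleton_iff]
  have hconj : ∀ g : G, i g * y * (i g)⁻¹ ∈ conjugatesOf y := by
    intro g
    change IsConj y _
    rw [isConj_iff]
    exact ⟨i g, rfl⟩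
  have hcomm : ∀ n : ℤ, y ^ n * y * (y ^ n)⁻¹ = y := by
    intro n
    rw [(Commute.refl y).zpow_left n |>.eq, mul_inv_cancel_right]
  have hiff : ∀ a b : G, (a⁻¹ * b) ∈ (Subgroup.centralizer {y}).comap i ↔
      i a * y * (i a)⁻¹ = i b * y * (i b)⁻¹ := by
    intro a b
    rw [hmem, map_mul, map_inv]
    constructor
    · intro h
      have h1 : i b * y * (i b)⁻¹ = i a * ((i a)⁻¹ * i b * y) * (i b)⁻¹ := by group
      rw [h1, h]
      group
    · intro h
      have h1 : (i a)⁻¹ * i b * y = (i a)⁻¹ * (i b * y * (i b)⁻¹) * i b := by group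
      rw [h1, ← h]
      group
  unfold Subgroup.index
  symm
  let f : G ⧸ (Subgroup.centralizer {y}).comap i → conjugatesOf y :=
    Quotient.lift (fun g => (⟨i g * y * (i g)⁻¹, hconj g⟩ : conjugatesOf y)) (by
      intro a b hab
      apply Subtype.ext
      exact (hiff a b).1 (QuotientGroup.leftRel_apply.1 hab))
  apply Nat.card_eq_of_bijective f
  constructor
  · intro a b hab
    induction a using QuotientGroup.induction_on with
    | H a =>
      induction b using QuotientGroup.induction_on with
      | H b =>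
        rw [QuotientGroup.eq]
        rw [hiff]
        exact congrArg Subtype.val hab
  · rintro ⟨z, hz⟩
    have hz' : IsConj y z := hz
    obtain ⟨h, hh⟩ := isConj_iff.1 hz'
    obtain ⟨g, n, rfl⟩ := hH h
    refine ⟨(g : G ⧸ (Subgroup.centralizer {y}).comap i), ?_⟩
    apply Subtype.ext
    change i g * y * (i g)⁻¹ = z
    rw [← hh, mul_inv_rev]
    have h2 : i g * y ^ n * y * ((y ^ n)⁻¹ * (i g)⁻¹) = i g * (y ^ n * y * (y ^ n)⁻¹) * (i g)⁻¹ := by
      simp only [mul_assoc]
    rw [h2, hcomm]

theorem PRI (hC1 : C1_stmt) : PRI_stmt := by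
  intro G E A _ _ _ _ _ X p _ M hM hpM S y hy
  obtain ⟨-, -, -, -, -, -, hn, -⟩ := hC1 p M hM hpM
  refine ⟨fun _ => 1, PRI_one _, ⟨fun _ => 1, PRI_one _, ?_, ?_⟩, ?_⟩
  · intro g
    exact ⟨0, M.zero_mem, by simp⟩
  · have := Fintype.ofFinite G
    rw [finsum_eq_sum_of_fintype]
    simp
  · intro h
    rw [PRI_omega] at h
    have h1 : Mcong M (Nat.card (conjugatesOf (⟨y, self_mem X y⟩ : GY X y)) : ℂ) 0 := by
      obtain ⟨a, ha, hb⟩ := h
      exact ⟨a, ha, by rw [sub_zero]; exact hb⟩
    rw [hn, PRI_card (incY X y)] at h1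
    · have h2 : (S : Subgroup G) ≤ (Subgroup.centralizer {(⟨y, self_mem X y⟩ : GY X y)}).comap (incY X y) := by
        intro s hs
        rw [Subgroup.mem_comap, Subgroup.mem_centralizer_singleton_iff]
        apply Subtype.ext
        change X.inc s * y = y * X.inc s
        have h3 := X.act_spec y s
        rw [hy s hs] at h3
        calc X.inc s * y = y * X.inc s * y⁻¹ * y := by rw [← h3]
          _ = y * X.inc s := inv_mul_cancel_right _ _
      exact S.not_dvd_index (h1.trans (Subgroup.index_dvd_of_le h2))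
    · rintro ⟨h, hh⟩
      obtain ⟨n, hn⟩ := Subgroup.mem_zpowers_iff.1 (show X.proj h ∈ Subgroup.zpowers (X.proj y) from hh)
      obtain ⟨g, hg⟩ := (X.exact (h * (y ^ n)⁻¹)).1 (by
        rw [map_mul, map_inv, map_zpow, hn, mul_inv_cancel])
      refine ⟨g, n, ?_⟩
      apply Subtype.ext
      change h = X.inc g * y ^ n
      rw [hg, inv_mul_cancel_right]

end Pool.Agent.BQ
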