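import Pool.Agent.helper35.BQ.Spec

/-!
# RIV: `RedX` is invariant under isomorphisms
-/

set_option autoImplicit false

namespace Pool.Agent.BQ

open Pool.Agent.helper58.DC Pool.Agent.DI Pool.Agent.DR Pool.Agent.NQ

theorem RIV_bot {A A' : Type} [Group A] [Group A'] (e : A ≃* A') (K : Subgroup A') :
    K.comap e.toMonoidHom = ⊥ ↔ K = ⊥ := by
  constructor
  · intro h
    rw [eq_bot_iff]
    intro x hx
    have h1 : e.symm x ∈ K.comap e.toMonoidHom := by
      rw [Subgroup.mem_comap]
      simpa using hx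
    rw [h, Subgroup.mem_bot] at h1
    rw [Subgroup.mem_bot]
    have h2 := congrArg e h1
    simpa using h2
  · intro h
    rw [h, eq_bot_iff]
    intro x hx
    rw [Subgroup.mem_comap, Subgroup.mem_bot] at hx
    rw [Subgroup.mem_bot]
    have h2 : e x = e 1 := by rw [map_one]; exact hx
    exact e.injective h2

theorem RIV_inj {A A' : Type} [Group A] [Group A'] (e : A ≃* A') (K L : Subgroup A')
    (h : K.comap e.toMonoidHom = L.comap e.toMonoidHom) : K = L := by
  ext x
  have h1 : e.symm x ∈ K.comap e.toMonoidHom ↔ e.symm x ∈ L.comap e.toMonoidHom := by rw [h]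
  rw [Subgroup.mem_comap, Subgroup.mem_comap] at h1
  simpa using h1

theorem RIV_top {A A' : Type} [Group A] [Group A'] (e : A ≃* A') (K : Subgroup A') :
    K.comap e.toMonoidHom = ⊤ ↔ K = ⊤ := by
  constructor
  · intro h
    apply RIV_inj e
    rw [h, Subgroup.comap_top]
  · intro h
    rw [h, Subgroup.comap_top]

/-- The subgroup of `A'` as `comap` of its `comap` by the inverse. -/
theorem RIV_symm {A A' : Type} [Group A] [Group A'] (e : A ≃* A') (K : Subgroup A) :
    (K.comap e.symm.toMonoidHom).comap e.toMonoidHom = K := by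
  ext x
  rw [Subgroup.mem_comap, Subgroup.mem_comap]
  simp

theorem RIV_le {A A' : Type} [Group A] [Group A'] (e : A ≃* A') (K L : Subgroup A') :
    K.comap e.toMonoidHom ≤ L.comap e.toMonoidHom ↔ K ≤ L := by
  constructor
  · intro h x hx
    have h1 : e.symm x ∈ K.comap e.toMonoidHom := by
      rw [Subgroup.mem_comap]
      simpa using hx
    have h2 := h h1
    rw [Subgroup.mem_comap] at h2
    simpa using h2
  · intro h
    exact Subgroup.comap_mono h

/-- The equivalence of `K.comap e` and `K`. -/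
def RIV_eqv {A A' : Type} [Group A] [Group A'] (e : A ≃* A') (K : Subgroup A') :
    (K.comap e.toMonoidHom : Subgroup A) ≃ K where
  toFun x := ⟨e x.1, x.2⟩
  invFun y := ⟨e.symm y.1, by
    rw [Subgroup.mem_comap]
    simp⟩
  left_inv x := by simp
  right_inv y := by simp

theorem RIV_card {A A' : Type} [Group A] [Group A'] (e : A ≃* A') (K : Subgroup A') :
    Nat.card (K.comap e.toMonoidHom : Subgroup A) = Nat.card K := Nat.card_congr (RIV_eqv e K)

theorem RIV_minAb {A A' : Type} [Group A] [Group A'] (e : A ≃* A') (N : Subgroup A') (hN : MinAb N) :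
    MinAb (N.comap e.toMonoidHom) where
  ne h := hN.ne ((RIV_bot e N).1 h)
  nor := by
    have := hN.nor
    exact Subgroup.Normal.comap hN.nor _
  min K hK hle := by
    have h1 : (K.comap e.symm.toMonoidHom).Normal := hK.comap _
    have h2 : K.comap e.symm.toMonoidHom ≤ N := by
      rw [← RIV_le e, RIV_symm]
      exact hle
    rcases hN.min _ h1 h2 with h3 | h3
    · left
      rw [← RIV_symm e K, RIV_bot]
      exact h3
    · right
      rw [← RIV_symm e K, h3]
  comm x hx y hy := by
    rw [Subgroup.mem_comap] at hx hy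
    have h1 := hN.comm _ hx _ hy
    apply e.injective
    rw [map_mul, map_mul]
    exact h1

theorem RIV_cpl {A A' : Type} [Group A] [Group A'] (e : A ≃* A') (N V : Subgroup A') :
    IsCpl (N.comap e.toMonoidHom) (V.comap e.toMonoidHom) ↔ IsCpl N V := by
  unfold IsCpl
  have h1 : V.comap e.toMonoidHom ⊔ N.comap e.toMonoidHom = (V ⊔ N).comap e.toMonoidHom :=
    Subgroup.comap_sup_eq _ _ _ e.surjective
  rw [← Subgroup.comap_inf, RIV_bot, h1, RIV_top]

theorem RIV_ncpl {A A' : Type} [Group A] [Group A'] (e : A ≃* A') (N : Subgroup A') :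
    ncpl (N.comap e.toMonoidHom) = ncpl N := by
  unfold ncpl
  symm
  refine Nat.card_congr ⟨fun V => ⟨V.1.comap e.toMonoidHom, (RIV_cpl e N V.1).2 V.2⟩,
    fun V => ⟨V.1.comap e.symm.toMonoidHom, ?_⟩, ?_, ?_⟩
  · rw [← RIV_cpl e, RIV_symm]
    exact V.2
  · intro V
    apply Subtype.ext
    apply RIV_inj e
    exact RIV_symm e _
  · intro V
    apply Subtype.ext
    exact RIV_symm e _

theorem RIV_crp {A A' : Type} [Group A] [Group A'] (e : A ≃* A') (N : Subgroup A')
    (h : CrP (N.comap e.toMonoidHom)) : CrP N := by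
  intro f hf1 hf2 hf3
  obtain ⟨l, hl1, hl2⟩ := h (fun a x => f (e a) (e x))
    (fun a x hx y hy => by
      rw [map_mul]
      exact hf1 _ _ hx _ hy)
    (fun a b x hx => by
      rw [map_mul, map_mul, map_mul, map_inv]
      exact hf2 _ _ _ hx)
    (fun a ha x hx => hf3 _ ha _ hx)
  refine ⟨fun x => l (e.symm x), ?_, ?_⟩
  · intro x hx y hy
    have hx' : e.symm x ∈ N.comap e.toMonoidHom := by
      rw [Subgroup.mem_comap]
      simpa using hx
    have hy' : e.symm y ∈ N.comap e.toMonoidHom := by
      rw [Subgroup.mem_comap]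
      simpa using hy
    have := hl1 _ hx' _ hy'
    show l (e.symm (x * y)) = l (e.symm x) * l (e.symm y)
    rw [map_mul]
    exact this
  · intro a x hx
    have hx' : e.symm x ∈ N.comap e.toMonoidHom := by
      rw [Subgroup.mem_comap]
      simpa using hx
    have h1 := hl2 (e.symm a) (e.symm x) hx'
    simp only [MulEquiv.apply_symm_apply] at h1
    rw [h1]
    show _ = l (e.symm (a⁻¹ * x * a)) * (l (e.symm x))⁻¹
    rw [map_mul, map_mul, map_inv]

theorem RIV : RIV_stmt := by
  intro p A A' _ _ _ _ ⟨e⟩ h N hN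
  obtain ⟨h1, h2, h3⟩ := h (N.comap e.toMonoidHom) (RIV_minAb e N hN)
  rw [RIV_card] at h1 h2
  rw [RIV_ncpl] at h2
  refine ⟨h1, h2, ?_⟩
  rintro ⟨a, x, hx, hax⟩
  apply RIV_crp e
  apply h3
  refine ⟨e.symm a, e.symm x, ?_, ?_⟩
  · rw [Subgroup.mem_comap]
    simpa using hx
  · intro h4
    apply hax
    rw [← map_mul, ← map_mul] at h4
    exact e.symm.injective h4

end Pool.Agent.BQ
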