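import Mathlib
import Pool.Agent.helper76.BQ.TDefs
import Pool.Agent.helper76.BQ.BDefs
import Pool.Agent.helper76.BQ.BGood

/-!
# Project bq, module B6a: Schwartz functions as level functions
-/

open Matrix Complex

namespace Pool.Agent.helper76.BQ

variable {F : Type} [Field F] [NumberField F]

/-- B6a: take `N = 2 m` -/
theorem schw_level {k g : ℕ} {d : F} {δ : Fin k → F} {bas dua : Fin g → Fin k → Fin 3 → F} (hL : LB d δ bas dua)
    {φ : (Fin k → Fin 3 → F) → ℂ} (hφ : IsSchw φ) :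
    ∃ N : ℕ, 0 < N ∧ Even N ∧ ∃ ψ : Sch g N,
      (∀ n : Fin g → ℤ, φ (∑ i, ((n i : F) / (N : F)) • bas i) = ψ (red N n)) ∧
      ∀ x, φ x ≠ 0 → ∃ n : Fin g → ℤ, x = ∑ i, ((n i : F) / (N : F)) • bas i := by
  obtain ⟨m, hm, hsupp, hper⟩ := hφ
  have hmF : (m : F) ≠ 0 := by exact_mod_cast hm.ne'
  refine ⟨2 * m, by omega, even_two_mul m, fun r => φ (∑ i, (((r i).val : F) / ((2 * m : ℕ) : F)) • bas i),
    ?_, ?_⟩
  · intro n
    have : NeZero ((2 * m) ^ 2) := ⟨by positivity⟩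
    have h1 : ∀ i, ∃ c : ℤ, n i = (((n i : ZMod ((2 * m) ^ 2))).val : ℤ) + ((2 * m : ℕ) : ℤ) ^ 2 * c := by
      intro i
      have h2 : ((n i : ZMod ((2 * m) ^ 2)).val : ℤ) = n i % (((2 * m) ^ 2 : ℕ) : ℤ) := ZMod.val_intCast _
      refine ⟨n i / (((2 * m) ^ 2 : ℕ) : ℤ), ?_⟩
      rw [h2]
      have h3 := Int.emod_add_mul_ediv (n i) (((2 * m) ^ 2 : ℕ) : ℤ)
      push_cast at h3 ⊢
      linarith
    choose c hc using h1
    have h4 : (∑ i, ((n i : F) / ((2 * m : ℕ) : F)) • bas i) =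
        (∑ i, ((((red (2 * m) n i).val : ℕ) : F) / ((2 * m : ℕ) : F)) • bas i) +
          (m : F) • ((2 : F) • (∑ i, ((c i : ℤ) : F) • bas i)) := by
      rw [Finset.smul_sum, Finset.smul_sum, ← Finset.sum_add_distrib]
      refine Finset.sum_congr rfl (fun i _ => ?_)
      rw [smul_smul, smul_smul, ← add_smul]
      congr 1
      have h5 : (n i : F) = (((n i : ZMod ((2 * m) ^ 2)).val : ℕ) : F) + ((2 * m : ℕ) : F) ^ 2 * (c i : F) := by
        have := congrArg (fun t : ℤ => (t : F)) (hc i)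
        simpa using this
      rw [h5]
      unfold red
      push_cast
      field_simp
    rw [h4]
    refine hper _ _ (fun l i => ?_)
    have h6 : ∀ l i, IsIntegral ℤ ((∑ i, ((c i : ℤ) : F) • bas i) l i) := (hL.int_iff _).2 ⟨c, rfl⟩
    have h7 : ((2 : F) • (∑ i, ((c i : ℤ) : F) • bas i)) l i =
        (∑ i, ((c i : ℤ) : F) • bas i) l i + (∑ i, ((c i : ℤ) : F) • bas i) l i := by
      rw [two_smul]; rfl
    rw [h7]
    exact (h6 l i).add (h6 l i)
  · intro x hx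
    obtain ⟨c, hc⟩ := (hL.int_iff ((m : F) • x)).1 (fun l i => hsupp x hx l i)
    refine ⟨fun i => 2 * c i, ?_⟩
    have h8 : x = (m : F)⁻¹ • ((m : F) • x) := by rw [smul_smul, inv_mul_cancel₀ hmF, one_smul]
    rw [h8, hc, Finset.smul_sum]
    refine Finset.sum_congr rfl (fun i _ => ?_)
    rw [smul_smul]
    congr 1
    push_cast
    field_simp

end Pool.Agent.helper76.BQ
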