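import Mathlib
import Pool.Agent.helper76.BQ.TDefs

/-!
# Project bq, module T3c: one dimensional functional equation with parameters
-/

open Matrix Complex

namespace Pool.Agent.helper76.BQ

/-- positivity of the imaginary part of `i z / N²` -/
theorem T3c_im {N : ℕ} (hN : 0 < N) (z : ℂ) (hz : 0 < z.re) : 0 < (I * z / (N : ℂ) ^ 2).im := by
  have hNC : (N : ℂ) ≠ 0 := by exact_mod_cast hN.ne'
  have hNR : (0 : ℝ) < N := by exact_mod_cast hN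
  have h1 : I * z / (N : ℂ) ^ 2 = ((1 / (N : ℝ) ^ 2 : ℝ) : ℂ) * (I * z) := by
    push_cast; field_simp
  rw [h1, Complex.im_ofReal_mul, Complex.I_mul_im]
  positivity

/-- summability of the one dimensional theta series with bounded coefficients -/
theorem T3c_summable {N : ℕ} (hN : 0 < N) (φ : ZMod (N ^ 2) → ℂ) (z ζ : ℂ) (hz : 0 < z.re) :
    Summable (fun n : ℤ => φ (n : ZMod (N ^ 2)) *
        cexp (-(Real.pi : ℂ) * z * ((n : ℂ) / N) ^ 2 + 2 * (Real.pi : ℂ) * I * ζ * ((n : ℂ) / N))) := by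
  have : NeZero (N ^ 2) := ⟨by positivity⟩
  have hNC : (N : ℂ) ≠ 0 := by exact_mod_cast hN.ne'
  have hs := (summable_jacobiTheta₂_term_iff (ζ / N) (I * z / (N : ℂ) ^ 2)).2 (T3c_im hN z hz)
  obtain ⟨C, hC⟩ : ∃ C : ℝ, ∀ x, ‖φ x‖ ≤ C := by
    refine ⟨∑ x, ‖φ x‖, fun x => Finset.single_le_sum (f := fun x => ‖φ x‖) (fun _ _ => norm_nonneg _)
      (Finset.mem_univ x)⟩
  refine Summable.of_norm_bounded (g := fun n : ℤ => C * ‖jacobiTheta₂_term n (ζ / N) (I * z / (N : ℂ) ^ 2)‖)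
    (hs.norm.mul_left C) (fun n => ?_)
  rw [norm_mul]
  have h2 : cexp (-(Real.pi : ℂ) * z * ((n : ℂ) / N) ^ 2 + 2 * (Real.pi : ℂ) * I * ζ * ((n : ℂ) / N)) =
      jacobiTheta₂_term n (ζ / N) (I * z / (N : ℂ) ^ 2) := by
    unfold jacobiTheta₂_term
    congr 1
    have : I * I = -1 := I_mul_I
    field_simp
    linear_combination (-((n : ℂ) ^ 2 * z)) * this
  rw [h2]
  exact mul_le_mul_of_nonneg_right (hC _) (norm_nonneg _)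

/-- the terms of the dual series are summable -/
theorem T3c_dual_summable {N : ℕ} (hN : 0 < N) (z ζ : ℂ) (hz : 0 < z.re) (c : ℕ) :
    Summable (fun m : ℤ => cexp (2 * (Real.pi : ℂ) * I * ((m : ℂ) * (c : ℂ)) / (N : ℂ) ^ 2) *
          cexp (-(Real.pi : ℂ) * ((m : ℂ) / N) ^ 2 / z + 2 * (Real.pi : ℂ) * ((m : ℂ) / N) * ζ / z)) := by
  have hNC : (N : ℂ) ≠ 0 := by exact_mod_cast hN.ne'
  have hz0 : z ≠ 0 := by rintro rfl; simp at hz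
  have hzi : 0 < (z⁻¹).re := by
    rw [Complex.inv_re]
    exact div_pos hz (Complex.normSq_pos.2 hz0)
  have hs := (summable_jacobiTheta₂_term_iff (-I * ζ / (z * N) + c / (N : ℂ) ^ 2)
    (I * z⁻¹ / (N : ℂ) ^ 2)).2 (T3c_im hN _ hzi)
  refine hs.congr (fun m => ?_)
  unfold jacobiTheta₂_term
  rw [← Complex.exp_add]
  congr 1
  have : I * I = -1 := I_mul_I
  field_simp
  linear_combination (-2 * (m : ℂ) * ζ * N + (m : ℂ) ^ 2) * this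

/-- the functional equation on one residue class -/
theorem T3c_class {N : ℕ} (hN : 0 < N) (z ζ : ℂ) (hz : 0 < z.re) (c : ℕ) :
    ∑' l : ℤ, cexp (-(Real.pi : ℂ) * z * (((l * ((N ^ 2 : ℕ) : ℤ) + (c : ℤ) : ℤ) : ℂ) / N) ^ 2 +
        2 * (Real.pi : ℂ) * I * ζ * (((l * ((N ^ 2 : ℕ) : ℤ) + (c : ℤ) : ℤ) : ℂ) / N)) =
      z ^ (-(1 / 2 : ℂ)) * cexp (-(Real.pi : ℂ) * ζ ^ 2 / z) * ((N : ℂ)⁻¹ *
        ∑' m : ℤ, (cexp (2 * (Real.pi : ℂ) * I * ((m : ℂ) * (c : ℂ)) / (N : ℂ) ^ 2) *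
          cexp (-(Real.pi : ℂ) * ((m : ℂ) / N) ^ 2 / z + 2 * (Real.pi : ℂ) * ((m : ℂ) / N) * ζ / z))) := by
  have hNC : (N : ℂ) ≠ 0 := by exact_mod_cast hN.ne'
  have hNR : (0 : ℝ) < N := by exact_mod_cast hN
  have hz0 : z ≠ 0 := by rintro rfl; simp at hz
  have hI : I * I = -1 := I_mul_I
  have e1 : ∀ l : ℤ, cexp (-(Real.pi : ℂ) * z * (((l * ((N ^ 2 : ℕ) : ℤ) + (c : ℤ) : ℤ) : ℂ) / N) ^ 2 +
        2 * (Real.pi : ℂ) * I * ζ * (((l * ((N ^ 2 : ℕ) : ℤ) + (c : ℤ) : ℤ) : ℂ) / N)) =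
      cexp (-(Real.pi : ℂ) * z * ((c : ℂ) / N) ^ 2 + 2 * (Real.pi : ℂ) * I * ζ * ((c : ℂ) / N)) *
        jacobiTheta₂_term l (ζ * N + I * z * c) (I * z * (N : ℂ) ^ 2) := by
    intro l
    unfold jacobiTheta₂_term
    rw [← Complex.exp_add]
    congr 1
    push_cast
    field_simp
    linear_combination (-(2 * (l : ℂ) * z * c * N ^ 2 + (l : ℂ) ^ 2 * z * N ^ 4)) * hI
  simp_rw [e1]
  rw [tsum_mul_left]
  have e2 : ∑' l : ℤ, jacobiTheta₂_term l (ζ * N + I * z * c) (I * z * (N : ℂ) ^ 2) =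
      jacobiTheta₂ (ζ * N + I * z * c) (I * z * (N : ℂ) ^ 2) := rfl
  rw [e2, jacobiTheta₂_functional_equation]
  have e3 : jacobiTheta₂ ((ζ * N + I * z * c) / (I * z * (N : ℂ) ^ 2)) (-1 / (I * z * (N : ℂ) ^ 2)) =
      ∑' m : ℤ, (cexp (2 * (Real.pi : ℂ) * I * ((m : ℂ) * (c : ℂ)) / (N : ℂ) ^ 2) *
          cexp (-(Real.pi : ℂ) * ((m : ℂ) / N) ^ 2 / z + 2 * (Real.pi : ℂ) * ((m : ℂ) / N) * ζ / z)) := by
    unfold jacobiTheta₂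
    refine tsum_congr (fun m => ?_)
    unfold jacobiTheta₂_term
    rw [← Complex.exp_add]
    congr 1
    have hI0 : I ≠ 0 := I_ne_zero
    field_simp
    linear_combination (0 : ℂ) * hI
  rw [e3]
  have e4 : (-I * (I * z * (N : ℂ) ^ 2)) ^ (1 / 2 : ℂ) = z ^ (1 / 2 : ℂ) * N := by
    have h0 : (-I * (I * z * (N : ℂ) ^ 2)) = (((N : ℝ) ^ 2 : ℝ) : ℂ) * z := by
      push_cast
      linear_combination (-(z * (N : ℂ) ^ 2)) * hI
    have hN2 : (0 : ℝ) < (N : ℝ) ^ 2 := by positivity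
    have h5 : ((((N : ℝ) ^ 2 : ℝ) : ℂ) * z) ≠ 0 := mul_ne_zero (by exact_mod_cast hN2.ne') hz0
    rw [h0, Complex.cpow_def_of_ne_zero h5, Complex.log_ofReal_mul hN2 hz0, Complex.cpow_def_of_ne_zero hz0,
      add_mul, Complex.exp_add, mul_comm]
    congr 1
    have h6 : ((Real.log ((N : ℝ) ^ 2) : ℝ) : ℂ) * (1 / 2 : ℂ) = ((Real.log (N : ℝ) : ℝ) : ℂ) := by
      rw [Real.log_pow]
      push_cast
      ring
    rw [h6, ← Complex.ofReal_exp, Real.exp_log hNR]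
    norm_cast
  rw [e4]
  have e5 : z ^ (-(1 / 2 : ℂ)) = (z ^ (1 / 2 : ℂ))⁻¹ := Complex.cpow_neg _ _
  rw [e5]
  have hzc : z ^ (1 / 2 : ℂ) ≠ 0 := by
    rw [Ne, Complex.cpow_eq_zero_iff]
    tauto
  have e6 : cexp (-(Real.pi : ℂ) * z * ((c : ℂ) / N) ^ 2 + 2 * (Real.pi : ℂ) * I * ζ * ((c : ℂ) / N)) *
      cexp (-(Real.pi : ℂ) * I * (ζ * N + I * z * c) ^ 2 / (I * z * (N : ℂ) ^ 2)) =
      cexp (-(Real.pi : ℂ) * ζ ^ 2 / z) := by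
    rw [← Complex.exp_add]
    congr 1
    have hI0 : I ≠ 0 := I_ne_zero
    field_simp
    linear_combination (-(z ^ 2 * (c : ℂ) ^ 2)) * hI
  rw [← e6]
  field_simp

/-- T3c: one dimensional functional equation with parameters (from jacobiTheta2): for `0 < Re z`
and `φ` periodic mod `N²` -/
theorem fe_one {N : ℕ} (hN : 0 < N) (φ : ZMod (N ^ 2) → ℂ) (z ζ : ℂ) (hz : 0 < z.re) :
    ∑' n : ℤ, φ (n : ZMod (N ^ 2)) *
        cexp (-(Real.pi : ℂ) * z * ((n : ℂ) / N) ^ 2 + 2 * (Real.pi : ℂ) * I * ζ * ((n : ℂ) / N)) =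
      z ^ (-(1 / 2 : ℂ)) * cexp (-(Real.pi : ℂ) * ζ ^ 2 / z) *
        ∑' m : ℤ, ((N : ℂ)⁻¹ * ∑ c ∈ Finset.range (N ^ 2), φ (c : ZMod (N ^ 2)) *
            cexp (2 * (Real.pi : ℂ) * I * ((m : ℂ) * (c : ℂ)) / (N : ℂ) ^ 2)) *
          cexp (-(Real.pi : ℂ) * ((m : ℂ) / N) ^ 2 / z + 2 * (Real.pi : ℂ) * ((m : ℂ) / N) * ζ / z) := by
  have : NeZero (N ^ 2) := ⟨by positivity⟩
  set F : ℤ → ℂ := fun n => φ (n : ZMod (N ^ 2)) *
        cexp (-(Real.pi : ℂ) * z * ((n : ℂ) / N) ^ 2 + 2 * (Real.pi : ℂ) * I * ζ * ((n : ℂ) / N)) with hF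
  have hs : Summable F := T3c_summable hN φ z ζ hz
  have hs1 : Summable (F ∘ (Int.divModEquiv (N ^ 2)).symm) :=
    (Equiv.summable_iff (Int.divModEquiv (N ^ 2)).symm).2 hs
  have hs2 : Summable ((F ∘ (Int.divModEquiv (N ^ 2)).symm) ∘ (Equiv.prodComm (Fin (N ^ 2)) ℤ)) :=
    (Equiv.summable_iff (Equiv.prodComm (Fin (N ^ 2)) ℤ)).2 hs1
  have h1 : ∑' n, F n = ∑ c : Fin (N ^ 2), ∑' l : ℤ, F (l * ((N ^ 2 : ℕ) : ℤ) + ((c : ℕ) : ℤ)) := by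
    rw [← (Int.divModEquiv (N ^ 2)).symm.tsum_eq F,
      ← (Equiv.prodComm (Fin (N ^ 2)) ℤ).tsum_eq (fun p => F ((Int.divModEquiv (N ^ 2)).symm p)),
      Summable.tsum_prod (f := fun p => F ((Int.divModEquiv (N ^ 2)).symm ((Equiv.prodComm (Fin (N ^ 2)) ℤ) p))) hs2,
      tsum_fintype]
    rfl
  rw [h1]
  have h2 : ∀ c : Fin (N ^ 2), ∑' l : ℤ, F (l * ((N ^ 2 : ℕ) : ℤ) + ((c : ℕ) : ℤ)) =
      ∑' m : ℤ, z ^ (-(1 / 2 : ℂ)) * cexp (-(Real.pi : ℂ) * ζ ^ 2 / z) * ((N : ℂ)⁻¹ *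
        (φ ((c : ℕ) : ZMod (N ^ 2)) *
          cexp (2 * (Real.pi : ℂ) * I * ((m : ℂ) * (((c : ℕ) : ℂ))) / (N : ℂ) ^ 2)) *
          cexp (-(Real.pi : ℂ) * ((m : ℂ) / N) ^ 2 / z + 2 * (Real.pi : ℂ) * ((m : ℂ) / N) * ζ / z)) := by
    intro c
    have h3 : ∀ l : ℤ, F (l * ((N ^ 2 : ℕ) : ℤ) + ((c : ℕ) : ℤ)) = φ ((c : ℕ) : ZMod (N ^ 2)) *
        cexp (-(Real.pi : ℂ) * z * (((l * ((N ^ 2 : ℕ) : ℤ) + ((c : ℕ) : ℤ) : ℤ) : ℂ) / N) ^ 2 +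
        2 * (Real.pi : ℂ) * I * ζ * (((l * ((N ^ 2 : ℕ) : ℤ) + ((c : ℕ) : ℤ) : ℤ) : ℂ) / N)) := by
      intro l
      rw [hF]
      have h4 : ((l * ((N ^ 2 : ℕ) : ℤ) + ((c : ℕ) : ℤ) : ℤ) : ZMod (N ^ 2)) = ((c : ℕ) : ZMod (N ^ 2)) := by
        push_cast
        have : ((N : ZMod (N ^ 2)) ^ 2) = 0 := by
          have := ZMod.natCast_self (N ^ 2)
          push_cast at this
          exact this
        rw [this, mul_zero, zero_add]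
      simp only [h4]
    simp_rw [h3]
    rw [tsum_mul_left, T3c_class hN z ζ hz c, ← tsum_mul_left, ← tsum_mul_left, ← tsum_mul_left]
    refine tsum_congr (fun m => ?_)
    ring
  simp_rw [h2]
  rw [← tsum_mul_left]
  rw [← Summable.tsum_finsetSum]
  · refine tsum_congr (fun m => ?_)
    rw [← Finset.mul_sum, ← Finset.sum_mul, ← Finset.mul_sum,
      Finset.sum_range (fun c => φ (c : ZMod (N ^ 2)) *
            cexp (2 * (Real.pi : ℂ) * I * ((m : ℂ) * (c : ℂ)) / (N : ℂ) ^ 2))]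
  · intro c _
    refine (((T3c_dual_summable hN z ζ hz c).mul_left (φ ((c : ℕ) : ZMod (N ^ 2)))).mul_left
      (z ^ (-(1 / 2 : ℂ)) * cexp (-(Real.pi : ℂ) * ζ ^ 2 / z) * (N : ℂ)⁻¹)).congr (fun m => ?_)
    ring

end Pool.Agent.helper76.BQ
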